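import Pool.Agent.W960.HC.Defs

set_option autoImplicit false

open Set Topology Filter MeasureTheory

namespace Pool.Agent.W980.HC

open Pool.Agent.W960.HC

theorem kp_lt_one {X : ℝ} (hX : 0 < X) : kp X < 1 := by
  unfold kp
  have h1 : X ^ 2 + 1 < Real.exp (X ^ 2) := Real.add_one_lt_exp (by positivity)
  rw [Real.exp_neg, inv_mul_lt_iff₀ (Real.exp_pos _)]
  linarith

theorem differentiableAt_et {X : ℝ} (hX : 0 < X) : DifferentiableAt ℝ et X := by
  unfold et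
  have h1 : DifferentiableAt ℝ (fun X => 1 - kp X) X := by
    unfold kp
    fun_prop
  exact h1.sqrt (by have := kp_lt_one hX; linarith)

theorem differentiableAt_Mel (hF : ∀ a c R : ℝ, ∃ Z W, Flw a c R Z W)
    (hH : ∀ {a c R X₀ : ℝ}, 0 < X₀ → 2 + X₀ < R →
      ∀ {Z : ℝ → ℝ × ℝ → ℝ → ℝ × ℝ} {W : ℝ → ℝ × ℝ → ℝ → ℝ}, Flw a c R Z W →
      ∃ τ δ, Half a c R X₀ Z W τ δ)
    (a c : ℝ) {X : ℝ} (hX : 0 < X) : DifferentiableAt ℝ (Mel a c) X := by
  obtain ⟨Z, W, hZW⟩ := hF a c (3 + X)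
  obtain ⟨τ, δ, h⟩ := hH hX (by linarith : 2 + X < 3 + X) hZW
  have hδ := h.hδ
  have hmem : X ∈ Ioo (X - δ) (X + δ) := ⟨by linarith, by linarith⟩
  have hmem0 : (0:ℝ) ∈ Ioo (-δ) δ := ⟨by linarith, hδ⟩
  have hτ : DifferentiableAt ℝ τ (X, 0) := by
    have hopen : Ioo (X - δ) (X + δ) ×ˢ Ioo (-δ) δ ∈ 𝓝 ((X, (0:ℝ)) : ℝ × ℝ) :=
      (isOpen_Ioo.prod isOpen_Ioo).mem_nhds ⟨hmem, hmem0⟩
    exact (h.smooth.contDiffAt hopen).differentiableAt (by norm_num)
  have hτ' : DifferentiableAt ℝ (fun x : ℝ => τ (x, 0)) X := by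
    have : DifferentiableAt ℝ (fun x : ℝ => ((x, (0:ℝ)) : ℝ × ℝ)) X := by fun_prop
    exact DifferentiableAt.comp X (g := τ) (f := fun x : ℝ => ((x, (0:ℝ)) : ℝ × ℝ)) hτ this
  have het := differentiableAt_et hX
  have hW : Differentiable ℝ (fun q : ℝ × (ℝ × ℝ) × ℝ => W q.1 q.2.1 q.2.2) :=
    hZW.smW.differentiable (by norm_num)
  have hin : DifferentiableAt ℝ (fun x : ℝ => ((τ (x, 0), ((0:ℝ), et x), (0:ℝ)) : ℝ × (ℝ × ℝ) × ℝ))
      X := by
    exact hτ'.prodMk (((differentiableAt_const _).prodMk het).prodMk (differentiableAt_const _))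
  have hcomp : DifferentiableAt ℝ (fun x : ℝ => W (τ (x, 0)) (0, et x) 0) X :=
    DifferentiableAt.comp X (g := fun q : ℝ × (ℝ × ℝ) × ℝ => W q.1 q.2.1 q.2.2)
      (f := fun x : ℝ => ((τ (x, 0), ((0:ℝ), et x), (0:ℝ)) : ℝ × (ℝ × ℝ) × ℝ)) (hW _) hin
  have heq : Mel a c =ᶠ[𝓝 X] fun x : ℝ => W (τ (x, 0)) (0, et x) 0 / 2 := by
    filter_upwards [isOpen_Ioo.mem_nhds hmem] with x hx
    rw [h.mel x hx]; ring
  exact (hcomp.div_const 2).congr_of_eventuallyEq heq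

theorem continuous_Y (κ : ℝ) : Continuous (Y κ) := by
  unfold Y
  fun_prop

/-- the coefficient of `a` in the Melnikov function -/
noncomputable def J (X : ℝ) : ℝ := ∫ x in (0:ℝ)..X, Real.exp (-x ^ 2) * Y (kp X) x

theorem Mel_eq (a c X : ℝ) : Mel a c X = Mel 0 c X + a * J X := by
  have hY := continuous_Y (kp X)
  unfold Mel J
  rw [← intervalIntegral.integral_const_mul, ← intervalIntegral.integral_add]
  · congr 1
    funext x
    ring
  · exact Continuous.intervalIntegrable (by fun_prop) _ _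
  · exact Continuous.intervalIntegrable (by fun_prop) _ _

theorem J_pos {X : ℝ} (hX : 0 < X) : 0 < J X := by
  have hY := continuous_Y (kp X)
  unfold J
  refine intervalIntegral.integral_pos hX (Continuous.continuousOn (by fun_prop)) ?_ ?_
  · intro x _
    exact mul_nonneg (Real.exp_pos _).le (Real.sqrt_nonneg _)
  · refine ⟨0, ⟨le_refl _, hX.le⟩, ?_⟩
    refine mul_pos (Real.exp_pos _) ?_
    unfold Y
    apply Real.sqrt_pos.mpr
    have := kp_lt_one hX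
    simp
    linarith

theorem null_crit (φ : ℝ → ℝ) : volume (φ '' {x | 0 < x ∧ HasDerivAt φ 0 x}) = 0 := by
  refine MeasureTheory.addHaar_image_eq_zero_of_det_fderivWithin_eq_zero volume
    (f' := fun _ => (0 : ℝ →L[ℝ] ℝ)) ?_ ?_
  · rintro x ⟨_, hx⟩
    have := hx.hasFDerivAt.hasFDerivWithinAt (s := {x | 0 < x ∧ HasDerivAt φ 0 x})
    simpa using this
  · intro x _
    simp [ContinuousLinearMap.det]

theorem exists_regular (hA : ∃ a c X1 X2 X3 X4 : ℝ, 0 < X1 ∧ X1 < X2 ∧ X2 < X3 ∧ X3 < X4 ∧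
      0 < Mel a c X1 ∧ Mel a c X2 < 0 ∧ 0 < Mel a c X3 ∧ Mel a c X4 < 0)
    (hM : ∀ (a c : ℝ) {X : ℝ}, 0 < X → DifferentiableAt ℝ (Mel a c) X) :
    ∃ a c x₁ x₂ x₃ m₁ m₂ m₃ : ℝ, 0 < x₁ ∧ x₁ < x₂ ∧ x₂ < x₃ ∧
    Mel a c x₁ = 0 ∧ Mel a c x₂ = 0 ∧ Mel a c x₃ = 0 ∧
    HasDerivAt (Mel a c) m₁ x₁ ∧ HasDerivAt (Mel a c) m₂ x₂ ∧ HasDerivAt (Mel a c) m₃ x₃ ∧
    m₁ ≠ 0 ∧ m₂ ≠ 0 ∧ m₃ ≠ 0 := by
  obtain ⟨a, c, X1, X2, X3, X4, h01, h12, h23, h34, s1, s2, s3, s4⟩ := hA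
  have h02 : 0 < X2 := h01.trans h12
  have h03 : 0 < X3 := h02.trans h23
  have h04 : 0 < X4 := h03.trans h34
  set φ : ℝ → ℝ := fun X => -Mel 0 c X / J X with hφ
  have hMel : ∀ b X, 0 < X → Mel b c X = J X * (b - φ X) := by
    intro b X hX
    have hJ := (J_pos hX).ne'
    rw [Mel_eq b c X, hφ]
    field_simp
    ring
  have hposiff : ∀ b X, 0 < X → (0 < Mel b c X ↔ φ X < b) := by
    intro b X hX
    rw [hMel b X hX, mul_pos_iff_of_pos_left (J_pos hX), sub_pos]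
  have hnegiff : ∀ b X, 0 < X → (Mel b c X < 0 ↔ b < φ X) := by
    intro b X hX
    have hJ := J_pos hX
    rw [hMel b X hX]
    constructor
    · intro h
      by_contra hc
      push Not at hc
      have := mul_nonneg hJ.le (sub_nonneg.mpr hc)
      linarith
    · intro h
      exact mul_neg_of_pos_of_neg hJ (sub_neg.mpr h)
  have hlu : max (φ X1) (φ X3) < min (φ X2) (φ X4) := by
    have a1 := (hposiff a X1 h01).mp s1
    have a2 := (hnegiff a X2 h02).mp s2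
    have a3 := (hposiff a X3 h03).mp s3
    have a4 := (hnegiff a X4 h04).mp s4
    exact (max_lt a1 a3).trans (lt_min a2 a4)
  obtain ⟨b, hb, hbn⟩ : ∃ b ∈ Ioo (max (φ X1) (φ X3)) (min (φ X2) (φ X4)),
      b ∉ φ '' {x | 0 < x ∧ HasDerivAt φ 0 x} := by
    by_contra hcon
    push Not at hcon
    have hsub : Ioo (max (φ X1) (φ X3)) (min (φ X2) (φ X4)) ⊆ φ '' {x | 0 < x ∧ HasDerivAt φ 0 x} :=
      fun b hb => hcon b hb
    have h0 : volume (Ioo (max (φ X1) (φ X3)) (min (φ X2) (φ X4))) = 0 :=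
      measure_mono_null hsub (null_crit φ)
    rw [Real.volume_Ioo, ENNReal.ofReal_eq_zero] at h0
    linarith
  have hcont : ContinuousOn (Mel b c) (Ioi 0) := fun x hx => (hM b c hx).continuousAt.continuousWithinAt
  have t1 : 0 < Mel b c X1 := (hposiff b X1 h01).mpr ((le_max_left _ _).trans_lt hb.1)
  have t2 : Mel b c X2 < 0 := (hnegiff b X2 h02).mpr (hb.2.trans_le (min_le_left _ _))
  have t3 : 0 < Mel b c X3 := (hposiff b X3 h03).mpr ((le_max_right _ _).trans_lt hb.1)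
  have t4 : Mel b c X4 < 0 := (hnegiff b X4 h04).mpr (hb.2.trans_le (min_le_right _ _))
  have hsubI : ∀ u v : ℝ, 0 < u → Icc u v ⊆ Ioi 0 := fun u v hu x hx => hu.trans_le hx.1
  obtain ⟨x1, hx1, z1⟩ : ∃ x ∈ Ioo X1 X2, Mel b c x = 0 := by
    have := intermediate_value_Ioo' h12.le (hcont.mono (hsubI X1 X2 h01))
    obtain ⟨x, hx, hx0⟩ := this ⟨t2, t1⟩
    exact ⟨x, hx, hx0⟩
  obtain ⟨x2, hx2, z2⟩ : ∃ x ∈ Ioo X2 X3, Mel b c x = 0 := by
    have := intermediate_value_Ioo h23.le (hcont.mono (hsubI X2 X3 h02))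
    obtain ⟨x, hx, hx0⟩ := this ⟨t2, t3⟩
    exact ⟨x, hx, hx0⟩
  obtain ⟨x3, hx3, z3⟩ : ∃ x ∈ Ioo X3 X4, Mel b c x = 0 := by
    have := intermediate_value_Ioo' h34.le (hcont.mono (hsubI X3 X4 h03))
    obtain ⟨x, hx, hx0⟩ := this ⟨t4, t3⟩
    exact ⟨x, hx, hx0⟩
  have hJd : ∀ X, 0 < X → DifferentiableAt ℝ J X := by
    intro X hX
    have : J = fun X => Mel 1 c X - Mel 0 c X := by
      funext Z; rw [Mel_eq 1 c Z]; ring
    rw [this]
    exact (hM 1 c hX).sub (hM 0 c hX)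
  have key : ∀ x, 0 < x → Mel b c x = 0 → deriv (Mel b c) x ≠ 0 := by
    intro x hx hx0 hd
    have hJ := (J_pos hx).ne'
    have hφb : φ x = b := by
      have := hMel b x hx
      rw [hx0] at this
      rcases mul_eq_zero.mp this.symm with h | h
      · exact absurd h hJ
      · linarith
    have hder : HasDerivAt (Mel b c) 0 x := by
      have := (hM b c hx).hasDerivAt
      rwa [hd] at this
    have hJder := (hJd x hx).hasDerivAt
    have hq : HasDerivAt (fun X => b - Mel b c X / J X) 0 x := by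
      have h1 := (hder.div hJder hJ).const_sub b
      rw [hx0] at h1
      simpa using h1
    have heq : φ =ᶠ[𝓝 x] fun X => b - Mel b c X / J X := by
      filter_upwards [isOpen_Ioi.mem_nhds hx] with X hX
      have hJX := (J_pos hX).ne'
      rw [hMel b X hX]
      field_simp
      ring
    exact hbn ⟨x, ⟨hx, hq.congr_of_eventuallyEq heq⟩, hφb⟩
  have p1 : 0 < x1 := h01.trans hx1.1
  have p2 : 0 < x2 := h02.trans hx2.1
  have p3 : 0 < x3 := h03.trans hx3.1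
  exact ⟨b, c, x1, x2, x3, _, _, _, p1, hx1.2.trans hx2.1, hx2.2.trans hx3.1, z1, z2, z3,
    (hM b c p1).hasDerivAt, (hM b c p2).hasDerivAt, (hM b c p3).hasDerivAt,
    key x1 p1 z1, key x2 p2 z2, key x3 p3 z3⟩

end Pool.Agent.W980.HC
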